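import Mathlib

set_option autoImplicit false

namespace Pool.Agent.H.MP_3a81bf_co

open Finset Classical

abbrev V (n : ℕ) := Fin n → Bool

def flip {n : ℕ} (x : V n) (i : Fin n) : V n := Function.update x i (!(x i))

lemma flip_flip {n : ℕ} (x : V n) (i : Fin n) : flip (flip x i) i = x := by
  funext j
  by_cases h : j = i
  · subst h; simp [flip]
  · simp [flip, Function.update_of_ne h]

lemma sum_flip {n : ℕ} (F : V n → V n → ℤ) :
    ∑ u, ∑ i, F u (flip u i) = ∑ u, ∑ i, F (flip u i) u := by
  rw [Finset.sum_comm]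
  conv_rhs => rw [Finset.sum_comm]
  refine Finset.sum_congr rfl fun i _ => ?_
  have hinv : Function.Involutive (fun u : V n => flip u i) := fun u => flip_flip u i
  rw [← Equiv.sum_comp hinv.toPerm]
  refine Finset.sum_congr rfl fun u _ => ?_
  simp [Function.Involutive.toPerm, flip_flip]

lemma sum_cons {n : ℕ} (F : V (n+1) → ℤ) :
    ∑ x, F x = ∑ y : V n, F (Fin.cons false y) + ∑ y : V n, F (Fin.cons true y) := by
  rw [← Equiv.sum_comp (Fin.consEquiv (fun _ : Fin (n+1) => Bool)), Fintype.sum_prod_type]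
  simp [Fin.consEquiv, add_comm]

lemma flip_cons_zero {n : ℕ} (b : Bool) (y : V n) :
    flip (Fin.cons b y : V (n+1)) 0 = Fin.cons (!b) y := by
  funext j
  refine Fin.cases ?_ (fun j => ?_) j
  · simp [flip]
  · simp [flip, Function.update_of_ne (Fin.succ_ne_zero j)]

lemma flip_cons_succ {n : ℕ} (b : Bool) (y : V n) (i : Fin n) :
    flip (Fin.cons b y : V (n+1)) i.succ = Fin.cons b (flip y i) := by
  funext j
  refine Fin.cases ?_ (fun j => ?_) j
  · simp [flip, Function.update_of_ne (Fin.succ_ne_zero i).symm]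
  · by_cases h : j = i
    · subst h; simp [flip]
    · have h' : j.succ ≠ i.succ := fun e => h (Fin.succ_injective _ e)
      simp [flip, Function.update_of_ne h, Function.update_of_ne h']

noncomputable def ind (p : Prop) : ℤ := if p then 1 else 0

lemma ind_nonneg (p : Prop) : 0 ≤ ind p := by unfold ind; split_ifs <;> simp
lemma ind_le (p : Prop) : ind p ≤ 1 := by unfold ind; split_ifs <;> simp
lemma ind_pos {p : Prop} (h : p) : ind p = 1 := by simp [ind, h]
lemma ind_neg {p : Prop} (h : ¬ p) : ind p = 0 := by simp [ind, h]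

/-- size of a vertex set -/
noncomputable def crd {n : ℕ} (A : V n → Prop) : ℤ := ∑ x, ind (A x)

/-- number of neighbours in `A` -/
noncomputable def inDeg {n : ℕ} (A : V n → Prop) (u : V n) : ℤ := ∑ i, ind (A (flip u i))

/-- edge boundary -/
noncomputable def bd {n : ℕ} (A : V n → Prop) : ℤ := ∑ u, ∑ i, ind (¬ A u ∧ A (flip u i))

lemma crd_nonneg {n : ℕ} (A : V n → Prop) : 0 ≤ crd A :=
  Finset.sum_nonneg fun _ _ => ind_nonneg _

lemma crd_compl {n : ℕ} (A : V n → Prop) : crd A + crd (fun x => ¬ A x) = 2 ^ n := by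
  unfold crd
  rw [← Finset.sum_add_distrib]
  have : ∀ x : V n, ind (A x) + ind (¬ A x) = 1 := by
    intro x; by_cases h : A x <;> simp [ind, h]
  simp [this]

lemma crd_le {n : ℕ} (A : V n → Prop) : crd A ≤ 2 ^ n := by
  have := crd_compl A
  have := crd_nonneg (fun x => ¬ A x)
  omega

lemma crd_cons {n : ℕ} (A : V (n+1) → Prop) :
    crd A = crd (fun y : V n => A (Fin.cons false y)) + crd (fun y : V n => A (Fin.cons true y)) :=
  sum_cons _

lemma bd_cons {n : ℕ} (A : V (n+1) → Prop) :
    bd A = bd (fun y : V n => A (Fin.cons false y)) + bd (fun y : V n => A (Fin.cons true y))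
      + ∑ y : V n, ind (¬ A (Fin.cons false y) ∧ A (Fin.cons true y))
      + ∑ y : V n, ind (¬ A (Fin.cons true y) ∧ A (Fin.cons false y)) := by
  unfold bd
  rw [sum_cons]
  simp only [Fin.sum_univ_succ, flip_cons_zero, flip_cons_succ, Finset.sum_add_distrib,
    Bool.not_false, Bool.not_true]
  ring

lemma diff_le {n : ℕ} (A B : V n → Prop) : crd B - crd A ≤ ∑ y, ind (¬ A y ∧ B y) := by
  unfold crd
  rw [← Finset.sum_sub_distrib]
  refine Finset.sum_le_sum fun y _ => ?_
  by_cases ha : A y <;> by_cases hb : B y <;> simp [ind, ha, hb]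

/-- edge-isoperimetric inequality in the form needed -/
lemma iso : ∀ (n : ℕ) (A : V n → Prop),
    4 * crd A ≤ 2 * bd A ∨ 2 ^ n ≤ 2 * bd A ∨ 4 * (2 ^ n - crd A) ≤ 2 * bd A := by
  intro n
  induction n with
  | zero =>
    intro A
    have hb : bd A = 0 := by simp [bd]
    have h1 := crd_le A
    have h2 := crd_nonneg A
    simp only [pow_zero] at *
    omega
  | succ n ih =>
    intro A
    have h0 := ih (fun y : V n => A (Fin.cons false y))
    have h1 := ih (fun y : V n => A (Fin.cons true y))
    have e1 := crd_cons A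
    have e2 := bd_cons A
    have d1 := diff_le (fun y : V n => A (Fin.cons false y)) (fun y : V n => A (Fin.cons true y))
    have d2 := diff_le (fun y : V n => A (Fin.cons true y)) (fun y : V n => A (Fin.cons false y))
    have p1 : 0 ≤ ∑ y : V n, ind (¬ A (Fin.cons false y) ∧ A (Fin.cons true y)) :=
      Finset.sum_nonneg fun _ _ => ind_nonneg _
    have p2 : 0 ≤ ∑ y : V n, ind (¬ A (Fin.cons true y) ∧ A (Fin.cons false y)) :=
      Finset.sum_nonneg fun _ _ => ind_nonneg _
    have a0 := crd_nonneg (fun y : V n => A (Fin.cons false y))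
    have a1 := crd_nonneg (fun y : V n => A (Fin.cons true y))
    have b0 := crd_le (fun y : V n => A (Fin.cons false y))
    have b1 := crd_le (fun y : V n => A (Fin.cons true y))
    rw [pow_succ]
    omega

lemma bd_le_of_borrow {n : ℕ} (D : V n → ℤ) (hD : ∀ u, 0 ≤ D u) (A : V n → Prop)
    (hA : ∀ u, ¬ A u → inDeg A u ≤ D u) : bd A ≤ ∑ u, D u := by
  unfold bd
  refine Finset.sum_le_sum fun u _ => ?_
  by_cases h : A u
  · simp [ind, h, hD u]
  · have := hA u h
    simpa [h, inDeg] using this

/-- a light divisor has a chip-free vertex whose fire is huge -/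
lemma fire : ∀ (n : ℕ) (D : V n → ℤ), (∀ u, 0 ≤ D u) → 2 * ∑ u, D u < 2 ^ n →
    ∃ w, D w = 0 ∧ ∀ A : V n → Prop, A w → (∀ u, ¬ A u → inDeg A u ≤ D u) →
      3 * 2 ^ n < 4 * crd A := by
  intro n
  induction n with
  | zero =>
    intro D hD hs
    refine ⟨Fin.elim0, ?_, fun A hA _ => ?_⟩
    · have h1 := hD Fin.elim0
      have h2 : D Fin.elim0 ≤ ∑ u, D u :=
        Finset.single_le_sum (fun u _ => hD u) (Finset.mem_univ _)
      simp only [pow_zero] at hs
      omega
    · have h2 : ind (A Fin.elim0) ≤ crd A :=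
        Finset.single_le_sum (f := fun x => ind (A x)) (fun _ _ => ind_nonneg _) (Finset.mem_univ _)
      rw [ind_pos hA] at h2
      simp only [pow_zero]
      omega
  | succ n ih =>
    intro D hD hs
    have key : ∀ b : Bool, 2 * ∑ y : V n, D (Fin.cons b y) < 2 ^ n →
        ∃ w, D w = 0 ∧ ∀ A : V (n+1) → Prop, A w → (∀ u, ¬ A u → inDeg A u ≤ D u) →
          3 * 2 ^ (n+1) < 4 * crd A := by
      intro b hb
      obtain ⟨w, hw, hA⟩ := ih (fun y => D (Fin.cons b y)) (fun y => hD _) hb
      refine ⟨Fin.cons b w, hw, fun A hAw hbor => ?_⟩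
      have h1 := hA (fun y => A (Fin.cons b y)) hAw (by
        intro u hu
        have := hbor _ hu
        unfold inDeg at this ⊢
        rw [Fin.sum_univ_succ] at this
        simp only [flip_cons_succ] at this
        have h0 := ind_nonneg (A (flip (Fin.cons b u : V (n+1)) 0))
        beta_reduce
        omega)
      have h2 : crd (fun y : V n => A (Fin.cons b y)) ≤ crd A := by
        have e1 := crd_cons A
        have a0 := crd_nonneg (fun y : V n => A (Fin.cons false y))
        have a1 := crd_nonneg (fun y : V n => A (Fin.cons true y))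
        cases b <;> omega
      have h3 := bd_le_of_borrow D hD A hbor
      have h4 := iso (n+1) A
      have h5 : (0:ℤ) < 2 ^ n := by positivity
      rw [pow_succ] at *
      omega
    rw [sum_cons, pow_succ] at hs
    by_cases h : 2 * ∑ y : V n, D (Fin.cons false y) < 2 ^ n
    · exact key false h
    · exact key true (by omega)

/-- Laplacian -/
def lap {n : ℕ} (f : V n → ℤ) (w : V n) : ℤ := ∑ i, (f w - f (flip w i))

lemma sum_lap {n : ℕ} (f : V n → ℤ) : ∑ w, lap f w = 0 := by
  have h := sum_flip (fun u v => f u - f v)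
  have h2 : ∑ u : V n, ∑ i, (f (flip u i) - f u) = - ∑ u : V n, ∑ i, (f u - f (flip u i)) := by
    rw [← Finset.sum_neg_distrib]
    refine Finset.sum_congr rfl fun u _ => ?_
    rw [← Finset.sum_neg_distrib]
    refine Finset.sum_congr rfl fun i _ => ?_
    ring
  unfold lap
  omega

lemma lap_add {n : ℕ} (f g : V n → ℤ) (w : V n) :
    lap (fun x => f x + g x) w = lap f w + lap g w := by
  unfold lap
  rw [← Finset.sum_add_distrib]
  refine Finset.sum_congr rfl fun i _ => ?_
  ring

lemma lap_sub {n : ℕ} (f g : V n → ℤ) (w : V n) :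
    lap (fun x => f x - g x) w = lap f w - lap g w := by
  unfold lap
  rw [← Finset.sum_sub_distrib]
  refine Finset.sum_congr rfl fun i _ => ?_
  ring

lemma level {n : ℕ} (D f : V n → ℤ) (hD : ∀ u, 0 ≤ D u) (hf : ∀ u, lap f u ≤ D u) (t : ℤ) :
    ∑ u, ∑ i, (ind (t ≤ f u) - ind (t ≤ f (flip u i))) * (f u - f (flip u i)) ≤ 2 * ∑ u, D u := by
  have h1 : ∑ u : V n, ∑ i, ind (t ≤ f u) * (f u - f (flip u i)) ≤ ∑ u, D u := by
    refine Finset.sum_le_sum fun u _ => ?_
    rw [← Finset.mul_sum]
    by_cases h : t ≤ f u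
    · rw [ind_pos h, one_mul]; exact hf u
    · rw [ind_neg h, zero_mul]; exact hD u
  have h2 := sum_flip (fun u v => ind (t ≤ f u) * (f u - f v))
  have h3 : ∑ u : V n, ∑ i, (ind (t ≤ f u) - ind (t ≤ f (flip u i))) * (f u - f (flip u i))
      = ∑ u : V n, ∑ i, ind (t ≤ f u) * (f u - f (flip u i))
        + ∑ u : V n, ∑ i, ind (t ≤ f (flip u i)) * (f (flip u i) - f u) := by
    rw [← Finset.sum_add_distrib]
    refine Finset.sum_congr rfl fun u _ => ?_
    rw [← Finset.sum_add_distrib]
    refine Finset.sum_congr rfl fun i _ => ?_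
    ring
  omega

lemma term_nonneg (t a b : ℤ) : 0 ≤ (ind (t ≤ a) - ind (t ≤ b)) * (a - b) := by
  by_cases ha : t ≤ a <;> by_cases hb : t ≤ b <;> simp [ind, ha, hb] <;> omega

lemma term_ge (t a b : ℤ) :
    ind (¬ t ≤ a ∧ t ≤ b) + ind (¬ t ≤ b ∧ t ≤ a) ≤ (ind (t ≤ a) - ind (t ≤ b)) * (a - b) := by
  by_cases ha : t ≤ a <;> by_cases hb : t ≤ b <;> simp [ind, ha, hb] <;> omega

lemma level_bd {n : ℕ} (D f : V n → ℤ) (hD : ∀ u, 0 ≤ D u) (hf : ∀ u, lap f u ≤ D u) (t : ℤ) :
    bd (fun u => t ≤ f u) ≤ ∑ u, D u := by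
  have h1 := level D f hD hf t
  have h2 := sum_flip (fun u v => ind (¬ t ≤ f u ∧ t ≤ f v))
  have h3 : ∑ u : V n, ∑ i, ind (¬ t ≤ f u ∧ t ≤ f (flip u i))
      + ∑ u : V n, ∑ i, ind (¬ t ≤ f (flip u i) ∧ t ≤ f u)
      ≤ ∑ u, ∑ i, (ind (t ≤ f u) - ind (t ≤ f (flip u i))) * (f u - f (flip u i)) := by
    rw [← Finset.sum_add_distrib]
    refine Finset.sum_le_sum fun u _ => ?_
    rw [← Finset.sum_add_distrib]
    exact Finset.sum_le_sum fun i _ => term_ge _ _ _
  unfold bd
  beta_reduce
  omega

lemma lip {n : ℕ} (D f : V n → ℤ) (hD : ∀ u, 0 ≤ D u) (hf : ∀ u, lap f u ≤ D u)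
    (u : V n) (i : Fin n) : f (flip u i) ≤ f u + 2 * ∑ u, D u := by
  have hs : 0 ≤ ∑ u, D u := Finset.sum_nonneg fun u _ => hD u
  by_cases h : f (flip u i) ≤ f u
  · omega
  have h1 := level D f hD hf (f (flip u i))
  have h2 : (ind (f (flip u i) ≤ f u) - ind (f (flip u i) ≤ f (flip u i))) * (f u - f (flip u i))
      ≤ ∑ j, (ind (f (flip u i) ≤ f u) - ind (f (flip u i) ≤ f (flip u j))) * (f u - f (flip u j)) :=
    Finset.single_le_sum
      (f := fun j => (ind (f (flip u i) ≤ f u) - ind (f (flip u i) ≤ f (flip u j))) * (f u - f (flip u j)))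
      (fun j _ => term_nonneg _ _ _) (Finset.mem_univ i)
  have h3 : ∑ j, (ind (f (flip u i) ≤ f u) - ind (f (flip u i) ≤ f (flip u j))) * (f u - f (flip u j))
      ≤ ∑ x, ∑ j, (ind (f (flip u i) ≤ f x) - ind (f (flip u i) ≤ f (flip x j))) * (f x - f (flip x j)) :=
    Finset.single_le_sum
      (f := fun x => ∑ j, (ind (f (flip u i) ≤ f x) - ind (f (flip u i) ≤ f (flip x j))) * (f x - f (flip x j)))
      (fun x _ => Finset.sum_nonneg fun j _ => term_nonneg _ _ _) (Finset.mem_univ u)
  have h4 : (ind (f (flip u i) ≤ f u) - ind (f (flip u i) ≤ f (flip u i))) * (f u - f (flip u i))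
      = f (flip u i) - f u := by
    rw [ind_neg h, ind_pos le_rfl]; ring
  omega

lemma bounded {n : ℕ} (f : V n → ℤ) (L : ℤ) (hL : 0 ≤ L)
    (hf : ∀ u i, f (flip u i) ≤ f u + L) (z v : V n) : f v ≤ f z + n * L := by
  have key : ∀ s : Finset (Fin n), f (fun i => if i ∈ s then v i else z i) ≤ f z + s.card * L := by
    intro s
    induction s using Finset.induction_on with
    | empty => simp
    | insert a s ha ih =>
      rw [Finset.card_insert_of_notMem ha]
      push_cast
      by_cases h : v a = z a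
      · have : (fun i => if i ∈ insert a s then v i else z i) = (fun i => if i ∈ s then v i else z i) := by
          funext i
          by_cases hi : i = a
          · subst hi; simp [ha, h]
          · simp [hi]
        rw [this]; linarith
      · have : (fun i => if i ∈ insert a s then v i else z i)
            = flip (fun i => if i ∈ s then v i else z i) a := by
          funext i
          by_cases hi : i = a
          · subst hi
            simp only [flip, Function.update_self, ha, if_false, Finset.mem_insert_self, if_true]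
            revert h
            cases v i <;> cases z i <;> simp
          · simp [flip, hi, Function.update_of_ne hi]
        rw [this]
        have := hf (fun i => if i ∈ s then v i else z i) a
        linarith
  simpa using key Finset.univ

theorem lower {n : ℕ} (D : V n → ℤ) (hD : ∀ u, 0 ≤ D u)
    (hr : ∀ v, ∃ f : V n → ℤ, ∀ w, 0 ≤ D w - ind (w = v) - lap f w) :
    2 ^ n ≤ 2 * ∑ u, D u := by
  by_contra hlt
  push Not at hlt
  have hs : 0 ≤ ∑ u, D u := Finset.sum_nonneg fun u _ => hD u
  have hN : (0:ℤ) < 2 ^ n := by positivity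
  let good : (V n → ℤ) → Prop := fun f =>
    (∀ u, 0 ≤ f u) ∧ (∀ u, lap f u ≤ D u) ∧ 4 * crd (fun u => 1 ≤ f u) < 2 ^ n
  have hbdd : ∃ b : ℤ, ∀ s : ℤ, (∃ f, good f ∧ ∑ u, f u = s) → s ≤ b := by
    refine ⟨∑ _u : V n, (n * (2 * ∑ u, D u)), ?_⟩
    rintro s ⟨f, ⟨h0, h1, h2⟩, rfl⟩
    have hz : ∃ z, f z ≤ 0 := by
      by_contra hc
      push Not at hc
      have hc' : crd (fun u => ¬ 1 ≤ f u) = 0 := by
        unfold crd
        refine Finset.sum_eq_zero fun u _ => ind_neg ?_
        have := hc u
        omega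
      have := crd_compl (fun u => 1 ≤ f u)
      omega
    obtain ⟨z, hz⟩ := hz
    refine Finset.sum_le_sum fun u _ => ?_
    have := bounded f (2 * ∑ u, D u) (by omega) (lip D f hD h1) z u
    linarith
  have hex : ∃ s : ℤ, ∃ f, good f ∧ ∑ u, f u = s := by
    refine ⟨_, fun _ => 0, ⟨fun _ => le_rfl, fun u => by simpa [lap] using hD u, ?_⟩, rfl⟩
    have : crd (fun _ : V n => (1:ℤ) ≤ 0) = 0 := by simp [crd, ind]
    rw [this]; omega
  obtain ⟨s, ⟨f, ⟨h0, h1, h2⟩, rfl⟩, hmax⟩ := Int.exists_greatest_of_bdd hbdd hex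
  have hsum : ∑ u, (D u - lap f u) = ∑ u, D u := by
    rw [Finset.sum_sub_distrib, sum_lap, sub_zero]
  obtain ⟨w, hw, hA⟩ := fire n (fun u => D u - lap f u) (fun u => by have := h1 u; omega)
    (by rw [hsum]; exact hlt)
  obtain ⟨g0, hg0⟩ := hr w
  let g : V n → ℤ := fun x => g0 x - f x
  obtain ⟨m, hm⟩ := Finite.exists_max g
  have htop : ∀ u, ¬ g u < g m → inDeg (fun x => g x < g m) u ≤ D u - lap f u - ind (u = w) := by
    intro u hu
    have e1 : lap g u = lap g0 u - lap f u := lap_sub g0 f u
    have e2 : inDeg (fun x => g x < g m) u ≤ lap g u := by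
      unfold inDeg lap
      refine Finset.sum_le_sum fun i _ => ?_
      have := hm (flip u i)
      by_cases h : g (flip u i) < g m
      · rw [ind_pos h]; omega
      · rw [ind_neg h]; omega
    have := hg0 u
    omega
  have hAw : g w < g m := by
    by_contra hc
    have h3 := htop w hc
    have h4 : 0 ≤ inDeg (fun x => g x < g m) w := Finset.sum_nonneg fun _ _ => ind_nonneg _
    rw [ind_pos rfl] at h3
    omega
  have hbig := hA (fun x => g x < g m) hAw (fun u hu => by
    have := htop u hu
    have := ind_nonneg (u = w)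
    omega)
  have hc := crd_compl (fun x => g x < g m)
  let f' : V n → ℤ := fun x => f x + ind (¬ g x < g m)
  have h1' : ∀ u, lap f' u ≤ D u := by
    intro u
    have e1 : lap f' u = lap f u + lap (fun x => ind (¬ g x < g m)) u := lap_add _ _ u
    by_cases hu : g u < g m
    · have e2 : lap (fun x => ind (¬ g x < g m)) u ≤ 0 := by
        unfold lap
        refine Finset.sum_nonpos fun i _ => ?_
        have := ind_nonneg (¬ g (flip u i) < g m)
        beta_reduce
        rw [ind_neg (not_not.mpr hu)]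
        omega
      have := h1 u
      omega
    · have e2 : lap (fun x => ind (¬ g x < g m)) u = inDeg (fun x => g x < g m) u := by
        unfold lap inDeg
        refine Finset.sum_congr rfl fun i _ => ?_
        beta_reduce
        rw [ind_pos hu]
        by_cases h : g (flip u i) < g m
        · rw [ind_pos h, ind_neg (not_not.mpr h)]; rfl
        · rw [ind_neg h, ind_pos h]; rfl
      have := htop u hu
      have := ind_nonneg (u = w)
      omega
  have hsub : crd (fun u => 1 ≤ f' u) ≤ crd (fun u => 1 ≤ f u) + crd (fun x => ¬ g x < g m) := by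
    unfold crd
    rw [← Finset.sum_add_distrib]
    refine Finset.sum_le_sum fun u _ => ?_
    have a1 := ind_nonneg (1 ≤ f u)
    have a2 := ind_le (1 ≤ f' u)
    have a3 := ind_nonneg (¬ g u < g m)
    beta_reduce
    by_cases hu : g u < g m
    · have : f' u = f u := by simp only [f']; rw [ind_neg (not_not.mpr hu)]; ring
      rw [this]; omega
    · rw [ind_pos hu]; omega
  have hb := level_bd D f' hD h1' 1
  have hi := iso n (fun u => 1 ≤ f' u)
  have hgood : good f' := by
    refine ⟨fun u => ?_, h1', by omega⟩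
    have := h0 u
    have := ind_nonneg (¬ g u < g m)
    simp only [f']
    omega
  have hle := hmax _ ⟨f', hgood, rfl⟩
  have e3 : ∑ u, f' u = ∑ u, f u + crd (fun x => ¬ g x < g m) := by
    unfold crd
    rw [← Finset.sum_add_distrib]
  have e4 : ind (¬ g m < g m) ≤ crd (fun x => ¬ g x < g m) :=
    Finset.single_le_sum (f := fun x => ind (¬ g x < g m)) (fun _ _ => ind_nonneg _)
      (Finset.mem_univ m)
  rw [ind_pos (lt_irrefl _)] at e4
  omega

end Pool.Agent.H.MP_3a81bf_co
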